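import Pool.Agent.H.MP_4cc90a_co.Pos
import Pool.Agent.H.MP_4cc90a_co.Ex

set_option autoImplicit false

namespace Pool.Agent.Results.MP_4cc90a_co.Both

open Pool.Agent.H.MP_4cc90a_co in
/-- The statement fails for pre-upho colorings (embeddings are order embeddings), and it holds
as soon as the embeddings are also required to preserve joins. -/
theorem result :
    (∃ (L : Type) (_ : Finite L) (_ : Lattice L) (_ : BoundedOrder L) (rk : L → ℕ)
      (c : L → L → At L), PreUpho False rk c ∧ ¬ HasGcd (PresentedMonoid (Rel c))) ∧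
    ∀ (L : Type) [Finite L] [Lattice L] [BoundedOrder L] (rk : L → ℕ) (c : L → L → At L),
      PreUpho True rk c → (∀ a u v : PresentedMonoid (Rel c), a * u = a * v → u = v) ∧
        HasGcd (PresentedMonoid (Rel c)) ∧ ∃ ψ : L → PresentedMonoid (Rel c),
          (∀ x y, ψ x ∣ ψ y ↔ x ≤ y) ∧ ∀ x w, PresentedMonoid.mk (Rel c) w = ψ x → w.length = rk x :=
  ⟨⟨LL, inferInstance, inferInstance, inferInstance, rkL, cL, preUpho, no_gcd⟩,
    fun _ _ _ _ _ _ H => ⟨cancel H, pos_gcd H, pos_emb H⟩⟩

end Pool.Agent.Results.MP_4cc90a_co.Both
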